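import Pool.Agent.Y496.HR.B

/-!
The system of `Pool.Agent.H694R3.Hs` is a factor of the orbit closure of a positive definite
function.
-/

open Filter Topology ComplexConjugate MeasureTheory

set_option autoImplicit false

namespace Pool.Agent.Y496.HR

open Pool.Agent.H694R3.Hs

noncomputable section

lemma theta_mem {g : ℤ → ℝ} (hg : g ∈ YY) : (fun m => Phi (g m)) ∈ XX := by
  have hθ : Continuous (fun (g : ℤ → ℝ) (m : ℤ) => Phi (g m)) :=
    continuous_pi fun m => Phi_continuous.comp (continuous_apply m)
  have h1 : YY ⊆ (fun (g : ℤ → ℝ) (m : ℤ) => Phi (g m)) ⁻¹' XX := by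
    refine closure_minimal ?_ (isClosed_closure.preimage hθ)
    rintro _ ⟨n, rfl⟩
    refine subset_closure ⟨n, ?_⟩
    funext m
    simp only [gg, one_mul]
  exact h1 hg

/-- The factor map. -/
def theta (g : YY) : XX := ⟨fun m => Phi ((g : ℤ → ℝ) m), theta_mem g.2⟩

lemma theta_continuous : Continuous theta := by
  refine Continuous.subtype_mk (continuous_pi fun m => ?_) _
  exact Phi_continuous.comp ((continuous_apply m).comp continuous_subtype_val)

lemma theta_surjective : Function.Surjective theta := by
  intro x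
  obtain ⟨g, hg, hgx⟩ := XX_of_YY x.2
  exact ⟨⟨g, hg⟩, Subtype.ext (funext fun m => (hgx m).symm)⟩

lemma theta_shift (g h : YY) (hh : ∀ m, (h : ℤ → ℝ) m = (g : ℤ → ℝ) (m + 1)) :
    theta h = SS (theta g) := by
  apply Subtype.ext
  funext m
  rw [SS_apply]
  change Phi _ = Phi _
  rw [hh]

end

end Pool.Agent.Y496.HR
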