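import Pool.Agent.H694R3.Hs6

/-!
The system of `Pool.Agent.H694R3.Hs`: rigidity of all powers on all orbit closures.
-/

open Filter Topology ComplexConjugate MeasureTheory

set_option autoImplicit false

namespace Pool.Agent.Y496.HR

open Pool.Agent.H694R3.Hs

noncomputable section

/-- The constants for the power `q`. -/
def cq (q j : ℕ) : ℝ := Real.cos (2 * Real.pi * q / 2 ^ j)

lemma PN_period_q {j k : ℕ} (h : j ≤ 2 * k + 1) (q : ℕ) (m : ℤ) :
    PN (k + 1) ((m : ℝ) + q * tm j k) = PN (k + 1) m := by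
  induction q with
  | zero => simp
  | succ q ih =>
    have h1 := PN_period h (m + q * tm j k)
    have h2 : ((m : ℝ) + ((q + 1 : ℕ) : ℝ) * tm j k) =
        (((m + q * tm j k : ℤ) : ℝ) + tm j k) := by
      push_cast
      ring
    rw [h2, h1]
    push_cast
    exact ih

lemma PN_shift_q {j k : ℕ} (h : j ≤ 2 * k + 1) (q : ℕ) (m : ℤ) :
    PN (k + 2) ((m : ℝ) + q * tm j k)
      = PN (k + 1) m *
        Real.cos (2 * Real.pi * m / 2 ^ ((k + 1) ^ 2) + 2 * Real.pi * q / 2 ^ j) := by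
  rw [PN_succ, PN_period_q h]
  congr 2
  have h3 : j ≤ (k + 1) ^ 2 := by nlinarith
  have h4 := tm_cast h3
  rw [mul_add, add_div]
  congr 1
  rw [← h4]
  have : ((tm j k : ℕ) : ℝ) ≠ 0 := by rw [tm]; positivity
  field_simp

lemma tail_zero_q (q j : ℕ) (m : ℤ) : Tendsto (fun k : ℕ =>
    (2 * Real.pi * ((m : ℝ) + q * tm j k)) ^ 2 * (1 / 4) ^ ((k + 2) ^ 2)) atTop (𝓝 0) := by
  have h1 := (tail_zero j |m|).const_mul (((q : ℝ) + 1) ^ 2)
  rw [mul_zero] at h1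
  refine squeeze_zero (fun k => by positivity) (fun k => ?_) h1
  have h0 : (0 : ℝ) ≤ ((tm j k : ℕ) : ℝ) := Nat.cast_nonneg _
  have hq : (0 : ℝ) ≤ (q : ℝ) := Nat.cast_nonneg _
  have h2 : ((m : ℝ) + q * tm j k) ^ 2 ≤ (((q : ℝ) + 1) * (((|m| : ℤ) : ℝ) + tm j k)) ^ 2 := by
    have ha := abs_nonneg (m : ℝ)
    have h3 : |(m : ℝ) + q * tm j k| ≤ ((q : ℝ) + 1) * (((|m| : ℤ) : ℝ) + tm j k) := by
      refine (abs_add_le _ _).trans ?_
      rw [abs_mul, abs_of_nonneg hq, abs_of_nonneg h0]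
      push_cast
      nlinarith [mul_nonneg hq ha]
    exact sq_le_sq' (by linarith [neg_abs_le ((m : ℝ) + q * tm j k)]) ((le_abs_self _).trans h3)
  have h4 : (0 : ℝ) ≤ (1 / 4) ^ ((k + 2) ^ 2) := by positivity
  calc (2 * Real.pi * ((m : ℝ) + q * tm j k)) ^ 2 * (1 / 4) ^ ((k + 2) ^ 2)
      = (2 * Real.pi) ^ 2 * ((m : ℝ) + q * tm j k) ^ 2 * (1 / 4) ^ ((k + 2) ^ 2) := by ring
    _ ≤ (2 * Real.pi) ^ 2 * (((q : ℝ) + 1) * (((|m| : ℤ) : ℝ) + tm j k)) ^ 2 *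
        (1 / 4) ^ ((k + 2) ^ 2) := by gcongr
    _ = _ := by ring

/-- Forward rigidity of the `q`-th power. -/
lemma rigid_pos_q (q j : ℕ) (m : ℤ) :
    Tendsto (fun k : ℕ => fp ((m : ℝ) + q * tm j k)) atTop (𝓝 (cq q j * fp m)) := by
  have h1 : Tendsto (fun k : ℕ => PN (k + 1) m *
      Real.cos (2 * Real.pi * m / 2 ^ ((k + 1) ^ 2) + 2 * Real.pi * q / 2 ^ j)) atTop
      (𝓝 (fp m * cq q j)) := by
    refine ((tendsto_fp m).comp (tendsto_add_atTop_nat 1)).mul ?_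
    have h2 : Tendsto (fun k : ℕ => 2 * Real.pi * m / 2 ^ ((k + 1) ^ 2) + 2 * Real.pi * q / 2 ^ j)
        atTop (𝓝 (0 + 2 * Real.pi * q / 2 ^ j)) :=
      (tendsto_const_nhds.div_atTop tendsto_pow_sq).add tendsto_const_nhds
    rw [zero_add] at h2
    exact (Real.continuous_cos.tendsto _).comp h2
  have h2 : Tendsto (fun k : ℕ => fp ((m : ℝ) + q * tm j k) - PN (k + 2) ((m : ℝ) + q * tm j k))
      atTop (𝓝 0) :=
    squeeze_zero_norm (fun k => fp_tail (k + 2) _) (tail_zero_q q j m)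
  have h3 : ∀ᶠ k : ℕ in atTop, PN (k + 1) m *
      Real.cos (2 * Real.pi * m / 2 ^ ((k + 1) ^ 2) + 2 * Real.pi * q / 2 ^ j)
      = PN (k + 2) ((m : ℝ) + q * tm j k) := by
    filter_upwards [eventually_ge_atTop j] with k hk
    rw [PN_shift_q (by omega)]
  have h4 := h2.add (h1.congr' h3)
  simp only [sub_add_cancel, zero_add] at h4
  rwa [mul_comm] at h4

/-- Backward rigidity of the `q`-th power. -/
lemma rigid_neg_q (q j : ℕ) (m : ℤ) :
    Tendsto (fun k : ℕ => fp ((m : ℝ) - q * tm j k)) atTop (𝓝 (cq q j * fp m)) := by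
  have h := rigid_pos_q q j (-m)
  have h2 : (fun k : ℕ => fp (((-m : ℤ) : ℝ) + q * tm j k)) =
      fun k : ℕ => fp ((m : ℝ) - q * tm j k) := by
    funext k
    rw [← fp_neg]
    congr 1
    push_cast
    ring
  rw [h2] at h
  have h3 : fp ((-m : ℤ) : ℝ) = fp m := by push_cast; exact fp_neg _
  rwa [h3] at h

lemma cq_bounds {q : ℕ} (hq : 0 < q) {j : ℕ} (hj : q + 3 ≤ j) : 0 < cq q j ∧ cq q j < 1 := by
  have hq0 : (0 : ℝ) < q := Nat.cast_pos.2 hq
  have h1 : 0 < 2 * Real.pi * q / 2 ^ j := by positivity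
  have h8 : 8 * (q : ℝ) < 2 ^ j := by
    have h2 : (q : ℝ) < 2 ^ q := by exact_mod_cast Nat.lt_two_pow_self
    calc 8 * (q : ℝ) < 8 * 2 ^ q := by linarith
      _ = 2 ^ (q + 3) := by rw [pow_add]; norm_num; ring
      _ ≤ 2 ^ j := pow_le_pow_right₀ (by norm_num) hj
  have h2 : 2 * Real.pi * q / 2 ^ j < Real.pi / 2 := by
    rw [div_lt_iff₀ (by positivity)]
    nlinarith [Real.pi_pos]
  refine ⟨Real.cos_pos_of_mem_Ioo ⟨by linarith [Real.pi_pos], h2⟩, ?_⟩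
  have := Real.cos_lt_cos_of_nonneg_of_le_pi le_rfl (by linarith [Real.pi_pos]) h1
  rwa [Real.cos_zero] at this

lemma tendsto_cq (q : ℕ) : Tendsto (cq q) atTop (𝓝 1) := by
  have h2 : Tendsto (fun j : ℕ => 2 * Real.pi * q / 2 ^ j) atTop (𝓝 0) :=
    tendsto_const_nhds.div_atTop (tendsto_pow_atTop_atTop_of_one_lt (by norm_num))
  have := (Real.continuous_cos.tendsto 0).comp h2
  rwa [Real.cos_zero] at this

/-- The orbit closure of the positive definite function. -/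
def YY : Set (ℤ → ℝ) := closure (Set.range fun (n : ℤ) (m : ℤ) => fp ((m + n : ℤ) : ℝ))

lemma abs_YY {g : ℤ → ℝ} (hg : g ∈ YY) (m : ℤ) : |g m| ≤ 1 := by
  have hcl : IsClosed {g : ℤ → ℝ | |g m| ≤ 1} :=
    isClosed_le ((continuous_apply m).abs) continuous_const
  exact closure_minimal (by rintro _ ⟨n, rfl⟩; exact abs_fp_le _) hcl hg

/-- Rigidity passes to the orbit closure. -/
lemma rigid_YY (s : ℕ → ℤ) (c : ℝ)
    (hs : ∀ m : ℤ, Tendsto (fun k => fp ((m + s k : ℤ) : ℝ)) atTop (𝓝 (c * fp m)))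
    {g : ℤ → ℝ} (hg : g ∈ YY) (m : ℤ) : Tendsto (fun k => g (m + s k)) atTop (𝓝 (c * g m)) := by
  obtain ⟨H, _, _, _, U, η, ξ, hf⟩ := isFS_fp.coeff
  obtain ⟨x, hx, hxg⟩ := mem_closure_iff_seq_limit.1 hg
  choose n hn using hx
  have hxm : ∀ i p, x i p = fp ((p + n i : ℤ) : ℝ) := fun i p => (congrFun (hn i) p).symm
  set 𝒰 : Ultrafilter ℕ := hyperfilter ℕ with h𝒰
  have hle : (𝒰 : Filter ℕ) ≤ atTop := by
    rw [← Nat.cofinite_eq_atTop]
    exact hyperfilter_le_cofinite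
  obtain ⟨v, hv⟩ := exists_weak_limit (𝕜 := ℂ) 𝒰 (fun i => (U ^ (-(n i))) η) ‖η‖ (fun i => by
    rw [LinearIsometryEquiv.norm_map])
  have hgv : ∀ p : ℤ, ((g p : ℝ) : ℂ) = inner ℂ v ((U ^ p) ξ) := by
    intro p
    have h1 := hv ((U ^ p) ξ)
    have h2 : Tendsto (fun i => ((x i p : ℝ) : ℂ)) 𝒰 (𝓝 ((g p : ℝ) : ℂ)) :=
      ((Complex.continuous_ofReal.tendsto _).comp ((tendsto_pi_nhds.1 hxg p))).mono_left hle
    refine tendsto_nhds_unique h2 (h1.congr fun i => ?_)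
    rw [hxm, hf, ← inner_zpow', ← zpow_add_apply, add_comm]
  rw [tendsto_iff_ultrafilter]
  intro 𝒱 h𝒱
  obtain ⟨ξ', hξ'⟩ := exists_weak_limit (𝕜 := ℂ) 𝒱 (fun k => (U ^ (s k)) ξ) ‖ξ‖ (fun i => by
    rw [LinearIsometryEquiv.norm_map])
  -- the weak limit of the vectors `U ^ (s k) ξ` tested against `U ^ p η`
  have h3 : ∀ p : ℤ, inner ℂ ((U ^ p) η) ξ' = (c : ℂ) * inner ℂ ((U ^ p) η) ξ := by
    intro p
    have h4 : Tendsto (fun k => inner ℂ ((U ^ p) η) ((U ^ (s k)) ξ)) 𝒱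
        (𝓝 (inner ℂ ((U ^ p) η) ξ')) := by
      have := (RCLike.continuous_conj.tendsto _).comp (hξ' ((U ^ p) η))
      rw [inner_conj_symm] at this
      refine this.congr fun k => ?_
      simp only [Function.comp_apply]
      rw [inner_conj_symm]
    have h5 : Tendsto (fun k => inner ℂ ((U ^ p) η) ((U ^ (s k)) ξ)) 𝒱
        (𝓝 ((c : ℂ) * inner ℂ ((U ^ p) η) ξ)) := by
      have h6 : Tendsto (fun k => ((fp ((-p + s k : ℤ) : ℝ) : ℝ) : ℂ)) 𝒱
          (𝓝 ((c * fp ((-p : ℤ) : ℝ) : ℝ) : ℂ)) :=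
        ((Complex.continuous_ofReal.tendsto _).comp (hs (-p))).mono_left h𝒱
      have h7 : ((c * fp ((-p : ℤ) : ℝ) : ℝ) : ℂ) = (c : ℂ) * inner ℂ ((U ^ p) η) ξ := by
        rw [Complex.ofReal_mul, hf, inner_zpow']
        rw [neg_neg]
      rw [h7] at h6
      refine h6.congr fun k => ?_
      rw [hf, inner_zpow, ← zpow_add_apply]
    exact tendsto_nhds_unique h4 h5
  have h8 : inner ℂ ((U ^ (-m)) v) ξ' = (c : ℂ) * inner ℂ ((U ^ (-m)) v) ξ := by
    have h9 := hv ((U ^ m) ξ')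
    have h10 := (hv ((U ^ m) ξ)).const_mul (c : ℂ)
    have h11 : ∀ i, inner ℂ ((U ^ (-(n i))) η) ((U ^ m) ξ') =
        (c : ℂ) * inner ℂ ((U ^ (-(n i))) η) ((U ^ m) ξ) := by
      intro i
      rw [inner_zpow', inner_zpow', ← zpow_add_apply, h3]
    rw [← inner_zpow', ← inner_zpow']
    exact tendsto_nhds_unique h9 (h10.congr fun i => (h11 i).symm)
  have h12 : Tendsto (fun k => ((g (m + s k) : ℝ) : ℂ)) 𝒱 (𝓝 ((c * g m : ℝ) : ℂ)) := by
    have h4 : Tendsto (fun k => inner ℂ ((U ^ (-m)) v) ((U ^ (s k)) ξ)) 𝒱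
        (𝓝 (inner ℂ ((U ^ (-m)) v) ξ')) := by
      have := (RCLike.continuous_conj.tendsto _).comp (hξ' ((U ^ (-m)) v))
      rw [inner_conj_symm] at this
      refine this.congr fun k => ?_
      simp only [Function.comp_apply]
      rw [inner_conj_symm]
    rw [h8, ← inner_zpow', ← hgv, ← Complex.ofReal_mul] at h4
    refine h4.congr fun k => ?_
    rw [hgv, ← inner_zpow', ← zpow_add_apply]
  have := (Complex.continuous_re.tendsto _).comp h12
  rw [Complex.ofReal_re] at this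
  exact this

end

end Pool.Agent.Y496.HR
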