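import Pool.Agent.Y496.HR.A

/-!
The system of `Pool.Agent.H694R3.Hs`: no closed set that is invariant under a power has a
factor that is representable on a Hilbert space.
-/

open Filter Topology ComplexConjugate MeasureTheory

set_option autoImplicit false

namespace Pool.Agent.Y496.HR

open Pool.Agent.H694R3.Hs

noncomputable section

lemma isCompact_YY : IsCompact YY := by
  have hK : IsCompact (Set.univ.pi fun _ : ℤ => Set.Icc (-1 : ℝ) 1) :=
    isCompact_univ_pi fun _ => isCompact_Icc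
  refine hK.of_isClosed_subset isClosed_closure (closure_minimal ?_ hK.isClosed)
  rintro _ ⟨n, rfl⟩ m _
  exact abs_le.1 (abs_fp_le ((m + n : ℤ) : ℝ))

lemma XX_of_YY {x : ℤ → ℝ} (hx : x ∈ XX) : ∃ g ∈ YY, ∀ m, x m = Phi (g m) := by
  have hθ : Continuous (fun (g : ℤ → ℝ) (m : ℤ) => Phi (g m)) :=
    continuous_pi fun m => Phi_continuous.comp (continuous_apply m)
  have h1 : XX ⊆ (fun (g : ℤ → ℝ) (m : ℤ) => Phi (g m)) '' YY := by
    refine closure_minimal ?_ (isCompact_YY.image hθ).isClosed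
    rintro _ ⟨n, rfl⟩
    refine ⟨fun m => fp ((m + n : ℤ) : ℝ), subset_closure ⟨n, rfl⟩, ?_⟩
    funext m
    simp only [gg, one_mul]
  obtain ⟨g, hg, hgx⟩ := h1 hx
  exact ⟨g, hg, fun m => (congrFun hgx m).symm⟩

lemma conv (s : ℕ → ℤ) (c : ℝ)
    (hs : ∀ m : ℤ, Tendsto (fun k => fp ((m + s k : ℤ) : ℝ)) atTop (𝓝 (c * fp m)))
    {g : ℤ → ℝ} (hg : g ∈ YY) (a : ℝ) :
    Tendsto (fun (k : ℕ) (m : ℤ) => Phi (a * g (m + s k))) atTop
      (𝓝 (fun m => Phi (a * (c * g m)))) := by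
  rw [tendsto_pi_nhds]
  intro m
  exact (Phi_continuous.tendsto _).comp ((rigid_YY s c hs hg m).const_mul a)

lemma sub_zpow {X : Type*} [TopologicalSpace X] (S : X ≃ₜ X) (W : Set X)
    (h : ∀ x, x ∈ W ↔ S x ∈ W) (n : ℤ) :
    ∀ x : W, (((S.subtype h : W ≃ₜ W) ^ n) x : X) = (S ^ n) (x : X) := by
  induction n using Int.induction_on with
  | zero => intro x; simp
  | succ n ih =>
    intro x
    rw [add_comm (n : ℤ) 1, homeo_zpow_add_apply, homeo_zpow_add_apply, zpow_one, zpow_one, ← ih]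
    rfl
  | pred n ih =>
    intro x
    have e1 : ∀ w : W, (((S.subtype h : W ≃ₜ W) ^ (-1 : ℤ)) w : X) = (S ^ (-1 : ℤ)) (w : X) := by
      intro w
      rw [zpow_neg, zpow_neg, zpow_one, zpow_one]
      rfl
    rw [sub_eq_add_neg, add_comm (-(n : ℤ)) (-1), homeo_zpow_add_apply, homeo_zpow_add_apply,
      ← ih, e1]

section W

variable (q : ℕ) (W : Set XX) (hW : ∀ x, x ∈ W ↔ (SS ^ q) x ∈ W)

/-- The restriction of the power. -/
def TW : W ≃ₜ W := (SS ^ q).subtype hW

lemma TW_coe (n : ℤ) (x : W) : (((TW q W hW) ^ n) x : XX) = (SS ^ ((q : ℤ) * n)) (x : XX) := by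
  rw [TW, sub_zpow, ← zpow_natCast, ← zpow_mul]

lemma TW_zpow (n : ℤ) (x : W) (m : ℤ) :
    ((((TW q W hW) ^ n) x : XX) : ℤ → ℝ) m = ((x : XX) : ℤ → ℝ) (m + q * n) := by
  rw [TW_coe, SS_zpow]

include hW in
/-- The special points over a point of `W`. -/
lemma pts (hWc : IsClosed W) (hq : 0 < q) (y : W) :
    ∃ (x : ℕ → ℕ → W) (t : ℕ → ℕ → ℕ) (z : W), (z : XX) = zz ∧ (∀ j, x j 0 = y) ∧
      (∀ j l, Tendsto (fun k => ((TW q W hW) ^ (t j k : ℤ)) (x j l)) atTop (𝓝 (x j (l + 1)))) ∧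
      (∀ j l, Tendsto (fun k => ((TW q W hW) ^ (-(t j k : ℤ))) (x j l)) atTop
        (𝓝 (x j (l + 1)))) ∧
      (∀ j, ∃ L, ∀ l, L ≤ l → ∀ m : ℤ, ((TW q W hW) ^ m) (x j l) = z) ∧
      Tendsto (fun j => x j 1) atTop (𝓝 y) := by
  obtain ⟨g, hg, hgy⟩ := XX_of_YY y.1.2
  let c : ℕ → ℝ := fun j => cq q (j + (q + 3))
  have hc : ∀ j, 0 < c j ∧ c j < 1 := fun j => cq_bounds hq (by omega)
  let Q : ℕ → ℕ → ℤ → ℝ := fun j l m => Phi (c j ^ l * g m)
  have hs1 : ∀ j (m : ℤ), Tendsto (fun k => fp ((m + (q : ℤ) * (tm (j + (q + 3)) k : ℤ) : ℤ) : ℝ))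
      atTop (𝓝 (c j * fp m)) := by
    intro j m
    refine (rigid_pos_q q (j + (q + 3)) m).congr fun k => ?_
    push_cast
    rfl
  have hs2 : ∀ j (m : ℤ), Tendsto (fun k => fp ((m + (q : ℤ) * -(tm (j + (q + 3)) k : ℤ) : ℤ) : ℝ))
      atTop (𝓝 (c j * fp m)) := by
    intro j m
    refine (rigid_neg_q q (j + (q + 3)) m).congr fun k => ?_
    push_cast
    rw [mul_neg, sub_eq_add_neg]
  have hstep : ∀ (j l : ℕ) (m : ℤ), c j ^ l * (c j * g m) = c j ^ (l + 1) * g m := by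
    intro j l m
    ring
  have conv1 : ∀ j l, Tendsto (fun (k : ℕ) (m : ℤ) =>
      Q j l (m + (q : ℤ) * (tm (j + (q + 3)) k : ℤ))) atTop (𝓝 (Q j (l + 1))) := by
    intro j l
    have := conv _ (c j) (hs1 j) hg (c j ^ l)
    simp only [hstep] at this
    exact this
  have conv2 : ∀ j l, Tendsto (fun (k : ℕ) (m : ℤ) =>
      Q j l (m + (q : ℤ) * -(tm (j + (q + 3)) k : ℤ))) atTop (𝓝 (Q j (l + 1))) := by
    intro j l
    have := conv _ (c j) (hs2 j) hg (c j ^ l)
    simp only [hstep] at this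
    exact this
  have hmem : ∀ j l, ∃ h : Q j l ∈ XX, (⟨Q j l, h⟩ : XX) ∈ W := by
    intro j l
    induction l with
    | zero =>
      have e : Q j 0 = (y : XX).1 := by
        funext m
        change Phi (c j ^ 0 * g m) = _
        rw [pow_zero, one_mul, hgy]
      have h : Q j 0 ∈ XX := by rw [e]; exact y.1.2
      refine ⟨h, ?_⟩
      have : (⟨Q j 0, h⟩ : XX) = y.1 := Subtype.ext e
      rw [this]
      exact y.2
    | succ l ih =>
      obtain ⟨h, h'⟩ := ih
      let w : W := ⟨⟨Q j l, h⟩, h'⟩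
      have h1 : Tendsto (fun k => ((((TW q W hW) ^ (tm (j + (q + 3)) k : ℤ)) w : XX) : ℤ → ℝ))
          atTop (𝓝 (Q j (l + 1))) := by
        refine (conv1 j l).congr fun k => ?_
        funext m
        rw [TW_zpow]
      have h2 : Q j (l + 1) ∈ XX :=
        isClosed_closure.mem_of_tendsto h1 (Eventually.of_forall fun k => Subtype.mem _)
      refine ⟨h2, hWc.mem_of_tendsto (f := fun k =>
        (((TW q W hW) ^ (tm (j + (q + 3)) k : ℤ)) w : XX)) (b := atTop) ?_
        (Eventually.of_forall fun k => Subtype.mem _)⟩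
      rw [tendsto_subtype_rng]
      exact h1
  choose hX hXW using hmem
  let x : ℕ → ℕ → W := fun j l => ⟨⟨Q j l, hX j l⟩, hXW j l⟩
  have hzero : ∀ j, ∃ L, ∀ l, L ≤ l → Q j l = 0 := by
    intro j
    obtain ⟨L, hL⟩ := exists_pow_lt_of_lt_one (show (0 : ℝ) < 1 / 2 by norm_num) (hc j).2
    refine ⟨L, fun l hl => ?_⟩
    funext m
    apply Phi_small
    have h1 : c j ^ l ≤ 1 / 2 :=
      (pow_le_pow_of_le_one (hc j).1.le (hc j).2.le hl).trans hL.le
    have h2 := abs_YY hg m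
    have h3 : 0 ≤ c j ^ l := pow_nonneg (hc j).1.le l
    rw [abs_mul, abs_of_nonneg h3]
    nlinarith [abs_nonneg (g m)]
  obtain ⟨L₀, hL₀⟩ := hzero 0
  refine ⟨x, fun j k => tm (j + (q + 3)) k, x 0 L₀, ?_, ?_, ?_, ?_, ?_, ?_⟩
  · apply Subtype.ext
    exact hL₀ L₀ le_rfl
  · intro j
    apply Subtype.ext
    apply Subtype.ext
    funext m
    change Phi (c j ^ 0 * g m) = _
    rw [pow_zero, one_mul, hgy]
  · intro j l
    rw [tendsto_subtype_rng, tendsto_subtype_rng]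
    refine (conv1 j l).congr fun k => ?_
    funext m
    rw [TW_zpow]
  · intro j l
    rw [tendsto_subtype_rng, tendsto_subtype_rng]
    refine (conv2 j l).congr fun k => ?_
    funext m
    rw [TW_zpow]
  · intro j
    obtain ⟨L, hL⟩ := hzero j
    refine ⟨L, fun l hl m => ?_⟩
    apply Subtype.ext
    apply Subtype.ext
    funext n
    rw [TW_zpow]
    change Q j l _ = Q 0 L₀ n
    rw [hL l hl, hL₀ L₀ le_rfl]
    rfl
  · rw [tendsto_subtype_rng, tendsto_subtype_rng, tendsto_pi_nhds]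
    intro m
    have h1 : Tendsto (fun j : ℕ => c j * g m) atTop (𝓝 (1 * g m)) :=
      ((tendsto_cq q).comp (tendsto_add_atTop_nat (q + 3))).mul_const _
    have h2 := (Phi_continuous.tendsto _).comp h1
    rw [one_mul, ← hgy] at h2
    refine h2.congr fun j => ?_
    change Phi (c j * g m) = Phi (c j ^ 1 * g m)
    rw [pow_one]

lemma W_collapse (hWc : IsClosed W) (hq : 0 < q) (y : W) {𝕜 : Type*} [RCLike 𝕜] {H : Type*}
    [NormedAddCommGroup H] [InnerProductSpace 𝕜 H] [CompleteSpace H] (F : W → 𝕜)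
    (hF : Continuous F) (U : H ≃ₗᵢ[𝕜] H) (ξ : H)
    (hξ : ∀ m : ℤ, inner 𝕜 ξ ((U ^ m) ξ) = F (((TW q W hW) ^ m) y)) : U ξ = ξ := by
  obtain ⟨x, t, z, _, h0, hp, hn, hz, h1⟩ := pts q W hW hWc hq y
  exact collapse (TW q W hW) y z x t h0 hp hn hz h1 F hF U ξ hξ

include hW in
/-- A factor on which a power of the shift acts trivially is a point. -/
lemma W_const (hWc : IsClosed W) (hq : 0 < q) {Y : Type*} [TopologicalSpace Y] [T2Space Y]
    (R : Y ≃ₜ Y) (π : W → Y) (hπ : Continuous π) (he : ∀ x, π (TW q W hW x) = R (π x))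
    (hR : ∀ x, R (π x) = π x) (y y' : W) : π y = π y' := by
  have h3 : ∀ (n : ℤ) (x : W), π (((TW q W hW) ^ n) x) = π x := by
    intro n
    induction n using Int.induction_on with
    | zero => intro x; simp
    | succ n ih =>
      intro x
      rw [add_comm (n : ℤ) 1, homeo_zpow_add_apply, zpow_one, he, hR, ih]
    | pred n ih =>
      intro x
      rw [sub_eq_add_neg, add_comm (-(n : ℤ)) (-1), homeo_zpow_add_apply]
      have h4 : ∀ w : W, π (((TW q W hW) ^ (-1 : ℤ)) w) = π w := by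
        intro w
        have h5 := he (((TW q W hW) ^ (-1 : ℤ)) w)
        rw [hR] at h5
        rw [← h5, zpow_neg, zpow_one]
        change π (TW q W hW ((TW q W hW).symm w)) = π w
        rw [Homeomorph.apply_symm_apply]
      rw [h4, ih]
  have key : ∀ y : W, ∃ z : W, (z : XX) = zz ∧ π y = π z := by
    intro y
    obtain ⟨x, t, z, hzz, h0, hp, _, hz, _⟩ := pts q W hW hWc hq y
    refine ⟨z, hzz, ?_⟩
    have h6 : ∀ l, π (x 0 (l + 1)) = π (x 0 l) := by
      intro l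
      have h7 := (hπ.tendsto _).comp (hp 0 l)
      refine tendsto_nhds_unique h7 ?_
      refine tendsto_const_nhds.congr fun k => ?_
      exact (h3 _ _).symm
    have h8 : ∀ l, π (x 0 l) = π y := by
      intro l
      induction l with
      | zero => rw [h0]
      | succ l ih => rw [h6, ih]
    obtain ⟨L, hL⟩ := hz 0
    have h9 := hL L le_rfl 0
    rw [zpow_zero] at h9
    have h10 : x 0 L = z := h9
    rw [← h8 L, h10]
  obtain ⟨z, hz, h1⟩ := key y
  obtain ⟨z', hz', h2⟩ := key y'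
  have : z = z' := Subtype.ext (hz.trans hz'.symm)
  rw [h1, h2, this]

/-- No factor of `(W, T ^ q)` is representable on a Hilbert space. -/
lemma W_no_factor (hWc : IsClosed W) (hq : 0 < q) {𝕜 : Type} [RCLike 𝕜] {Y : Type*}
    [TopologicalSpace Y] [T2Space Y] (R : Y ≃ₜ Y) (π : W → Y) (hπ : Continuous π)
    (hs : Function.Surjective π) (he : ∀ x, π (TW q W hW x) = R (π x)) {H : Type*}
    [NormedAddCommGroup H] [InnerProductSpace 𝕜 H]
    [CompleteSpace H] (U : H ≃ₗᵢ[𝕜] H) (α : Y → H) (hi : Function.Injective α)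
    (hα : ∀ v : H, Continuous fun y => inner 𝕜 v (α y)) (hU : ∀ y, α (R y) = U (α y)) :
    Subsingleton Y := by
  have h1 : ∀ x, U (α (π x)) = α (π x) := by
    intro x
    refine W_collapse q W hW hWc hq x (fun w => inner 𝕜 (α (π x)) (α (π w))) ((hα _).comp hπ)
      U (α (π x)) ?_
    intro m
    rw [factor_zpow (TW q W hW) R π he, rep_zpow R U α hU]
  refine ⟨fun a b => ?_⟩
  obtain ⟨x, rfl⟩ := hs a
  obtain ⟨y, rfl⟩ := hs b
  exact W_const q W hW hWc hq R π hπ he (fun w => hi (by rw [hU, h1])) x y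

end W

/-- The closure of an orbit of a power. -/
def orb (q : ℕ) (w : XX) : Set XX := closure (Set.range fun n : ℤ => (SS ^ ((q : ℤ) * n)) w)

lemma orb_inv (q : ℕ) (w : XX) (x : XX) : x ∈ orb q w ↔ (SS ^ q) x ∈ orb q w := by
  have h : (SS ^ q) '' (Set.range fun n : ℤ => (SS ^ ((q : ℤ) * n)) w)
      = Set.range fun n : ℤ => (SS ^ ((q : ℤ) * n)) w := by
    ext g
    constructor
    · rintro ⟨_, ⟨n, rfl⟩, rfl⟩
      refine ⟨n + 1, ?_⟩
      simp only
      rw [← zpow_natCast, ← homeo_zpow_add_apply]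
      congr 2
      ring
    · rintro ⟨n, rfl⟩
      refine ⟨(SS ^ ((q : ℤ) * (n - 1))) w, ⟨n - 1, rfl⟩, ?_⟩
      rw [← zpow_natCast, ← homeo_zpow_add_apply]
      congr 2
      ring
  unfold orb
  conv_rhs => rw [← h, ← Homeomorph.image_closure]
  exact ((SS ^ q).injective.mem_set_image).symm

/-- Every continuous function whose values along an orbit of a power form an element of `B(ℤ)` is
constant on this orbit. -/
lemma orbit_const (q : ℕ) (hq : 0 < q) (w : XX) (F : C(XX, ℂ))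
    (hF : IsFS fun n : ℤ => F ((SS ^ ((q : ℤ) * n)) w)) :
    ∃ c : ℂ, ∀ n : ℤ, F ((SS ^ ((q : ℤ) * n)) w) = c := by
  have hc : IsClosed (orb q w) := isClosed_closure
  have hw : w ∈ orb q w := subset_closure ⟨0, by simp⟩
  have : CompactSpace (orb q w) := isCompact_iff_compactSpace.1 hc.isCompact
  obtain ⟨H, _, _, _, U, η, ξ, h⟩ := hF.coeff
  have hd : Dense (Set.range fun n : ℤ =>
      ((TW q (orb q w) (orb_inv q w)) ^ n) (⟨w, hw⟩ : orb q w)) := by
    rw [dense_iff_closure_eq, Set.eq_univ_iff_forall]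
    intro x
    rw [closure_subtype]
    have h1 : (Subtype.val '' (Set.range fun n : ℤ =>
        ((TW q (orb q w) (orb_inv q w)) ^ n) (⟨w, hw⟩ : orb q w)))
        = Set.range fun n : ℤ => (SS ^ ((q : ℤ) * n)) w := by
      rw [← Set.range_comp]
      congr 1
      funext n
      exact TW_coe q (orb q w) (orb_inv q w) n ⟨w, hw⟩
    rw [h1]
    exact x.2
  have hcol : Collapses.{0, 0} (TW q (orb q w) (orb_inv q w)) (⟨w, hw⟩ : orb q w) ℂ := by
    intro H' _ _ _ F' hF' U' ξ' hξ'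
    exact W_collapse q (orb q w) (orb_inv q w) hc hq ⟨w, hw⟩ F' hF' U' ξ' hξ'
  obtain ⟨c, hcc⟩ := coeff_const hd hcol U η ξ ⟨fun x => F x.1, F.continuous.comp
    continuous_subtype_val⟩ (fun n => by
      rw [← h n]
      change F (((TW q (orb q w) (orb_inv q w)) ^ n) (⟨w, hw⟩ : orb q w) : XX) = _
      rw [TW_coe])
  refine ⟨c, fun n => ?_⟩
  have := hcc (((TW q (orb q w) (orb_inv q w)) ^ n) (⟨w, hw⟩ : orb q w))
  change F (((TW q (orb q w) (orb_inv q w)) ^ n) (⟨w, hw⟩ : orb q w) : XX) = c at this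
  rw [TW_coe] at this
  exact this

end

end Pool.Agent.Y496.HR
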